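import Pool.Agent.H85.KS2.Targets

set_option autoImplicit false

open scoped BigOperators

noncomputable section

namespace Pool.Agent.H12.KS2

open Pool.Agent.H98.KS Pool.Agent.H85.KS2

private theorem prod_mono (S T : Finset ℕ) (f : ℕ → ℝ) (hST : S ⊆ T)
    (h0 : ∀ i ∈ T, 0 ≤ f i) (h1 : ∀ i ∈ T, f i ≤ 1) : ∏ i ∈ T, f i ≤ ∏ i ∈ S, f i := by
  rw [← Finset.prod_sdiff hST]
  have hS : 0 ≤ ∏ i ∈ S, f i := Finset.prod_nonneg (fun i hi => h0 i (hST hi))
  have hd : ∏ i ∈ T \ S, f i ≤ 1 :=
    Finset.prod_le_one (fun i hi => h0 i (Finset.sdiff_subset hi))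
      (fun i hi => h1 i (Finset.sdiff_subset hi))
  exact mul_le_of_le_one_left hS hd

private theorem tele (m : ℕ) :
    ∏ i ∈ Finset.Ico 2 (m + 2), (1 - 1 / ((i : ℝ)) ^ 2) = ((m : ℝ) + 2) / (2 * ((m : ℝ) + 1)) := by
  induction m with
  | zero => simp
  | succ m ih =>
    rw [Finset.prod_Ico_succ_top (by omega), ih]
    push_cast
    have h1 : (m : ℝ) + 1 ≠ 0 := by positivity
    have h2 : (m : ℝ) + 2 ≠ 0 := by positivity
    field_simp
    ring

private theorem half (m : ℕ) :
    (1 : ℝ) / 2 ≤ ∏ i ∈ Finset.Ico 2 (m + 2), (1 - 1 / ((i : ℝ)) ^ 2) := by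
  rw [tele]
  have h1 : (0 : ℝ) < (m : ℝ) + 1 := by positivity
  rw [div_le_div_iff₀ (by norm_num) (by positivity)]
  nlinarith

/-- the local factor -/
private def cc (k d p0 p : ℕ) : ℝ :=
  if p < p0 then 1 / ((p : ℝ) ^ ((k.factorization p + 2) * (d - 1))) else 1 - 1 / (p : ℝ) ^ 2

private theorem cc_pos (k d p0 p : ℕ) (hp : 2 ≤ p) : 0 < cc k d p0 p := by
  unfold cc
  have h2 : (2 : ℝ) ≤ p := by exact_mod_cast hp
  split_ifs with h
  · positivity
  · have : 1 / (p : ℝ) ^ 2 ≤ 1 / 4 := by
      apply one_div_le_one_div_of_le (by norm_num)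
      nlinarith
    linarith

private theorem cc_le_one (k d p0 p : ℕ) (hp : 2 ≤ p) : cc k d p0 p ≤ 1 := by
  unfold cc
  have h2 : (1 : ℝ) ≤ p := by
    have : (2 : ℝ) ≤ p := by exact_mod_cast hp
    linarith
  split_ifs with h
  · rw [div_le_one (by positivity)]
    exact one_le_pow₀ h2
  · have : 0 ≤ 1 / (p : ℝ) ^ 2 := by positivity
    linarith

private theorem lsOne (k d l : ℕ) : LS k d 1 l = 1 := by
  unfold LS
  rw [Finset.filter_true_of_mem]
  · simp
  · intro x _
    exact Nat.modEq_one

private theorem small (hL1a : T_L1a) (hL1b : T_L1b) (k d p n l : ℕ) (hk : 3 ≤ k)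
    (hp : p.Prime) (hd1 : 4 * k ≤ d) (hd2 : k ^ 2 ≤ d) :
    p ^ (n * (d - 1)) ≤ p ^ ((k.factorization p + 2) * (d - 1)) * LS k d (p ^ n) l := by
  have hk0 : k ≠ 0 := by omega
  by_cases hpk : p ∣ k
  · have hv : p ^ k.factorization p ∣ k := Nat.ordProj_dvd k p
    have hvle : p ^ k.factorization p ≤ k := Nat.le_of_dvd (by omega) hv
    have hple : p ≤ k := Nat.le_of_dvd (by omega) hpk
    by_cases h2 : p = 2
    · refine hL1b k d p (k.factorization p) (k.factorization p + 2) n l (by omega) hp hv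
        (Nat.pow_succ_factorization_not_dvd hk0 hp) (Or.inr ⟨h2, rfl⟩) ?_
      rw [pow_add]
      rw [h2] at hvle ⊢
      omega
    · have h3 := hL1b k d p (k.factorization p) (k.factorization p + 1) n l (by omega) hp hv
        (Nat.pow_succ_factorization_not_dvd hk0 hp) (Or.inl ⟨h2, rfl⟩) (by
          rw [pow_succ]
          calc p ^ k.factorization p * p ≤ k * k := Nat.mul_le_mul hvle hple
            _ = k ^ 2 := by ring
            _ ≤ d := hd2)
      refine h3.trans (Nat.mul_le_mul_right _ (Nat.pow_le_pow_right hp.pos ?_))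
      exact Nat.mul_le_mul_right _ (by omega)
  · have h3 := hL1a k d p n l (by omega) hp hpk (by omega)
    refine h3.trans (Nat.mul_le_mul_right _ (Nat.pow_le_pow_right hp.pos ?_))
    calc d - 1 = 1 * (d - 1) := (one_mul _).symm
      _ ≤ _ := Nat.mul_le_mul_right _ (by omega)

theorem ks2_L3b (hL2 : T_L2) (hLM : T_LM) (hG6 : T_G6) (hL1a : T_L1a) (hL1b : T_L1b) :
    T_L3b := by
  intro k d hk hd1 hd2
  obtain ⟨p0, hp0⟩ := hG6 k hk
  have hk0 : k ≠ 0 := by omega
  -- prime powers
  have hA : ∀ p n l : ℕ, p.Prime →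
      cc k d p0 p * ((p ^ n : ℕ) : ℝ) ^ (d - 1) ≤ LS k d (p ^ n) l := by
    intro p n l hp
    have hpp : (0 : ℝ) < p := by exact_mod_cast hp.pos
    unfold cc
    split_ifs with h
    · have h1 := small hL1a hL1b k d p n l hk hp hd1 hd2
      have h2 : ((p ^ (n * (d - 1)) : ℕ) : ℝ) ≤
          ((p ^ ((k.factorization p + 2) * (d - 1)) * LS k d (p ^ n) l : ℕ) : ℝ) := by
        exact_mod_cast h1
      push_cast at h2
      push_cast
      rw [one_div, inv_mul_le_iff₀ (by positivity), ← pow_mul]
      exact h2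
    · have h1 := hL2 k d p n l (by omega) hp hd1 (fun j a ha => hp0 p j a 0 hp (not_lt.mp h) ha)
      push_cast
      rw [← pow_mul]
      exact h1
  have hB : ∀ W : ℕ, 1 ≤ W → ∀ l : ℕ,
      (∏ p ∈ W.primeFactors, cc k d p0 p) * (W : ℝ) ^ (d - 1) ≤ LS k d W l := by
    intro W
    induction W using Nat.recOnPosPrimePosCoprime with
    | prime_pow p n hp hn =>
      intro _ l
      rw [Nat.primeFactors_prime_pow hn.ne' hp, Finset.prod_singleton]
      exact hA p n l hp
    | zero => intro h; omega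
    | one =>
      intro _ l
      rw [lsOne]
      simp
    | coprime a b ha hb hab iha ihb =>
      intro _ l
      have h1 := iha (by omega) l
      have h2 := ihb (by omega) l
      rw [hLM k d a b l (by omega) (by omega) hab, hab.primeFactors_mul,
        Finset.prod_union hab.disjoint_primeFactors]
      push_cast
      rw [mul_pow]
      have e1 : 0 ≤ (∏ p ∈ a.primeFactors, cc k d p0 p) * (a : ℝ) ^ (d - 1) := by
        apply mul_nonneg _ (by positivity)
        exact Finset.prod_nonneg (fun i hi =>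
          (cc_pos k d p0 i (Nat.prime_of_mem_primeFactors hi).two_le).le)
      have e2 : 0 ≤ (∏ p ∈ b.primeFactors, cc k d p0 p) * (b : ℝ) ^ (d - 1) := by
        apply mul_nonneg _ (by positivity)
        exact Finset.prod_nonneg (fun i hi =>
          (cc_pos k d p0 i (Nat.prime_of_mem_primeFactors hi).two_le).le)
      calc _ = ((∏ p ∈ a.primeFactors, cc k d p0 p) * (a : ℝ) ^ (d - 1)) *
            ((∏ p ∈ b.primeFactors, cc k d p0 p) * (b : ℝ) ^ (d - 1)) := by ring
        _ ≤ (LS k d a l : ℝ) * (LS k d b l : ℝ) := by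
          apply mul_le_mul h1 h2 e2
          exact Nat.cast_nonneg _
  refine ⟨(∏ p ∈ (Finset.range p0).filter (fun p => 2 ≤ p), cc k d p0 p) * (1 / 2), ?_, ?_⟩
  · apply mul_pos _ (by norm_num)
    exact Finset.prod_pos (fun i hi => cc_pos k d p0 i (Finset.mem_filter.mp hi).2)
  · intro W l hW
    refine le_trans ?_ (hB W hW l)
    apply mul_le_mul_of_nonneg_right _ (by positivity)
    rw [← Finset.prod_filter_mul_prod_filter_not W.primeFactors (fun p => p < p0)]
    apply mul_le_mul
    · apply prod_mono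
      · intro p hp
        rw [Finset.mem_filter] at hp
        rw [Finset.mem_filter, Finset.mem_range]
        exact ⟨hp.2, (Nat.prime_of_mem_primeFactors hp.1).two_le⟩
      · intro i hi
        exact (cc_pos k d p0 i (Finset.mem_filter.mp hi).2).le
      · intro i hi
        exact cc_le_one k d p0 i (Finset.mem_filter.mp hi).2
    · have e1 : ∏ p ∈ W.primeFactors.filter (fun p => ¬ p < p0), cc k d p0 p =
          ∏ p ∈ W.primeFactors.filter (fun p => ¬ p < p0), (1 - 1 / ((p : ℝ)) ^ 2) := by
        apply Finset.prod_congr rfl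
        intro p hp
        unfold cc
        rw [if_neg (Finset.mem_filter.mp hp).2]
      rw [e1]
      refine le_trans (half W) ?_
      apply prod_mono
      · intro p hp
        rw [Finset.mem_filter] at hp
        rw [Finset.mem_Ico]
        have h1 := (Nat.prime_of_mem_primeFactors hp.1).two_le
        have h2 := Nat.le_of_mem_primeFactors hp.1
        omega
      · intro i hi
        have h2 : (2 : ℝ) ≤ i := by exact_mod_cast (Finset.mem_Ico.mp hi).1
        have : 1 / (i : ℝ) ^ 2 ≤ 1 / 4 := by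
          apply one_div_le_one_div_of_le (by norm_num)
          nlinarith
        linarith
      · intro i _
        have : 0 ≤ 1 / (i : ℝ) ^ 2 := by positivity
        linarith
    · norm_num
    · exact Finset.prod_nonneg (fun i hi =>
        (cc_pos k d p0 i (Nat.prime_of_mem_primeFactors (Finset.mem_filter.mp hi).1).two_le).le)

end Pool.Agent.H12.KS2
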